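import Pool.Agent.Y788.SL.Stm

/-! # Job SL-H: triangularization in `SL_n(F)` -/

set_option autoImplicit false

namespace Pool.Agent.Y813.SL

open Matrix Polynomial

section tri

variable {F : Type} [Field F]

/-- a matrix killed by `X^(2^a (q-1)) - 1` has an eigenvector -/
theorem eigvec [Finite F] [CharP F 2] {n : ℕ} (M : Matrix (Fin (n + 1)) (Fin (n + 1)) F) (a : ℕ)
    (hM : M ^ (2 ^ a * (Nat.card F - 1)) = 1) :
    ∃ (c : F) (v : Fin (n + 1) → F), v ≠ 0 ∧ M *ᵥ v = c • v := by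
  classical
  have := Fintype.ofFinite F
  set f : Module.End F (Fin (n + 1) → F) := Matrix.toLin' M with hf
  have hfk : f ^ (2 ^ a * (Nat.card F - 1)) = 1 := by
    rw [hf, ← Matrix.toLin'_pow, hM, Matrix.toLin'_one]
    rfl
  have hdvd : minpoly F f ∣ (X ^ (2 ^ a * (Nat.card F - 1)) - 1 : F[X]) := by
    apply minpoly.dvd
    rw [map_sub, map_pow, aeval_X, map_one, hfk, sub_self]
  have hfac : (X ^ (2 ^ a * (Nat.card F - 1)) - 1 : F[X]) = (X ^ (Nat.card F - 1) - 1) ^ (2 ^ a) := by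
    rw [sub_pow_char_pow, one_pow, ← pow_mul, mul_comm]
  have hdeg : 0 < (minpoly F f).natDegree :=
    minpoly.natDegree_pos (Algebra.IsIntegral.isIntegral f)
  obtain ⟨p, hp, hpd⟩ := Polynomial.exists_irreducible_of_natDegree_pos hdeg
  have h1 : p ∣ (X ^ (Nat.card F - 1) - 1 : F[X]) := by
    apply hp.prime.dvd_of_dvd_pow (n := 2 ^ a)
    rw [← hfac]
    exact hpd.trans hdvd
  have hq : 1 < Nat.card F := Finite.one_lt_card
  have h2 : p ∣ (X ^ Fintype.card F - X : F[X]) := by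
    have : (X ^ Fintype.card F - X : F[X]) = (X ^ (Nat.card F - 1) - 1) * X := by
      rw [sub_mul, one_mul, ← pow_succ, Nat.sub_add_cancel hq.le, Nat.card_eq_fintype_card]
    rw [this]
    exact h1.mul_right _
  have h3 : (X ^ Fintype.card F - X : F[X]) = ∏ c : F, (X - C c) := by
    have h4 := FiniteField.roots_X_pow_card_sub_X F
    have h5 : (X ^ Fintype.card F - X : F[X]).natDegree = Fintype.card F :=
      FiniteField.X_pow_card_sub_X_natDegree_eq F Fintype.one_lt_card
    have h6 : (X ^ Fintype.card F - X : F[X]).Monic := by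
      apply Polynomial.monic_X_pow_sub
      rw [Polynomial.degree_X]
      exact_mod_cast Fintype.one_lt_card
    have h7 := Polynomial.prod_multiset_X_sub_C_of_monic_of_roots_card_eq h6 (by
      rw [h4, h5]; rfl)
    rw [← h7, h4]
    rfl
  rw [h3] at h2
  obtain ⟨c, -, hc⟩ := (hp.prime.dvd_finsetProd_iff _).1 h2
  have h8 : (X - C c) ∣ p := (Irreducible.dvd_symm hp (irreducible_X_sub_C c) hc)
  have hroot : (minpoly F f).IsRoot c := Polynomial.dvd_iff_isRoot.1 (h8.trans hpd)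
  obtain ⟨v, hv⟩ := (Module.End.hasEigenvalue_of_isRoot hroot).exists_hasEigenvector
  refine ⟨c, v, hv.2, ?_⟩
  have := hv.apply_eq_smul
  rw [hf, Matrix.toLin'_apply] at this
  exact this

/-- a matrix of determinant one whose first column is a multiple of `v` -/
theorem exists_col {n : ℕ} (v : Fin (n + 1) → F) (hv : v ≠ 0) :
    ∃ (P : Matrix.SpecialLinearGroup (Fin (n + 1)) F) (t : F),
      (P : Matrix (Fin (n + 1)) (Fin (n + 1)) F) *ᵥ (Pi.single 0 1) = t • v := by
  have key : ∀ (w φ : Fin (n + 1) → F), φ 0 = 1 → φ ⬝ᵥ w = 1 →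
      ∃ (P : Matrix.SpecialLinearGroup (Fin (n + 1)) F),
        (P : Matrix (Fin (n + 1)) (Fin (n + 1)) F) *ᵥ (Pi.single 0 1) = w := by
    intro w φ h0 h1
    refine ⟨⟨1 + vecMulVec (w - Pi.single 0 1) φ, ?_⟩, ?_⟩
    · rw [vecMulVec_eq Unit, det_one_add_replicateCol_mul_replicateRow, dotProduct_sub, h1,
        dotProduct_single, h0]
      ring
    · show (1 + vecMulVec (w - Pi.single 0 1) φ) *ᵥ (Pi.single 0 1) = w
      rw [add_mulVec, one_mulVec, vecMulVec_mulVec, dotProduct_single, h0]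
      simp
  by_cases h0 : v 0 = 0
  · obtain ⟨i, hi⟩ : ∃ i, v i ≠ 0 := by
      by_contra h
      push Not at h
      exact hv (funext h)
    have hi0 : i ≠ 0 := fun h => hi (h ▸ h0)
    obtain ⟨P, hP⟩ := key ((v i)⁻¹ • v) (Pi.single 0 1 + Pi.single i 1)
      (by simp [Ne.symm hi0]) (by
        rw [add_dotProduct, single_dotProduct, single_dotProduct]
        simp [h0, hi])
    exact ⟨P, _, hP⟩
  · obtain ⟨P, hP⟩ := key ((v 0)⁻¹ • v) (Pi.single 0 1) (by simp) (by
        rw [single_dotProduct]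
        simp [h0])
    exact ⟨P, _, hP⟩

/-- block matrix `diag(1, P)` -/
def em {n : ℕ} (P : Matrix (Fin n) (Fin n) F) : Matrix (Fin (n + 1)) (Fin (n + 1)) F :=
  Matrix.of (Fin.cons (Fin.cons 1 0) (fun i => Fin.cons 0 (P i)))

@[simp] lemma em00 {n : ℕ} (P : Matrix (Fin n) (Fin n) F) : em P 0 0 = 1 := rfl
@[simp] lemma em0s {n : ℕ} (P : Matrix (Fin n) (Fin n) F) (j : Fin n) : em P 0 j.succ = 0 := rfl
@[simp] lemma ems0 {n : ℕ} (P : Matrix (Fin n) (Fin n) F) (i : Fin n) : em P i.succ 0 = 0 := rfl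
@[simp] lemma emss {n : ℕ} (P : Matrix (Fin n) (Fin n) F) (i j : Fin n) :
    em P i.succ j.succ = P i j := rfl

lemma em_mul {n : ℕ} (P Q : Matrix (Fin n) (Fin n) F) : em P * em Q = em (P * Q) := by
  ext i j
  refine Fin.cases ?_ (fun i => ?_) i <;> refine Fin.cases ?_ (fun j => ?_) j <;>
    simp [Matrix.mul_apply, Fin.sum_univ_succ]

lemma em_one {n : ℕ} : em (1 : Matrix (Fin n) (Fin n) F) = 1 := by
  ext i j
  refine Fin.cases ?_ (fun i => ?_) i <;> refine Fin.cases ?_ (fun j => ?_) j <;>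
    simp [Matrix.one_apply, Fin.succ_ne_zero, (Fin.succ_ne_zero _).symm]

lemma em_det {n : ℕ} (P : Matrix (Fin n) (Fin n) F) : (em P).det = P.det := by
  rw [Matrix.det_succ_row_zero, Fin.sum_univ_succ]
  have h : (em P).submatrix Fin.succ (Fin.succAbove 0) = P := by
    ext i j
    simp
  simp only [em0s, mul_zero, zero_mul, Finset.sum_const_zero, add_zero, em00, h]
  simp

lemma co_mul {m : ℕ} (A B : Matrix.SpecialLinearGroup (Fin m) F) :
    ((A * B : Matrix.SpecialLinearGroup (Fin m) F) : Matrix (Fin m) (Fin m) F) =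
      (A : Matrix (Fin m) (Fin m) F) * (B : Matrix (Fin m) (Fin m) F) :=
  Matrix.SpecialLinearGroup.coe_mul A B

lemma co_mi {m : ℕ} (A : Matrix.SpecialLinearGroup (Fin m) F) :
    (A : Matrix (Fin m) (Fin m) F) *
      ((A⁻¹ : Matrix.SpecialLinearGroup (Fin m) F) : Matrix (Fin m) (Fin m) F) = 1 := by
  have h : A * A⁻¹ = 1 := mul_inv_cancel A
  exact (co_mul A A⁻¹).symm.trans (congrArg (fun B : Matrix.SpecialLinearGroup (Fin m) F =>
    (B : Matrix (Fin m) (Fin m) F)) h)

lemma co_im {m : ℕ} (A : Matrix.SpecialLinearGroup (Fin m) F) :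
    ((A⁻¹ : Matrix.SpecialLinearGroup (Fin m) F) : Matrix (Fin m) (Fin m) F) *
      (A : Matrix (Fin m) (Fin m) F) = 1 := by
  have h : A⁻¹ * A = 1 := inv_mul_cancel A
  exact (co_mul A⁻¹ A).symm.trans (congrArg (fun B : Matrix.SpecialLinearGroup (Fin m) F =>
    (B : Matrix (Fin m) (Fin m) F)) h)

/-- `diag(1, P)` in `SL` -/
def emS {n : ℕ} (P : Matrix.SpecialLinearGroup (Fin n) F) : Matrix.SpecialLinearGroup (Fin (n + 1)) F :=
  ⟨em (P : Matrix (Fin n) (Fin n) F), by rw [em_det, P.2]⟩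

lemma emS_inv {n : ℕ} (P : Matrix.SpecialLinearGroup (Fin n) F) : (emS P)⁻¹ = emS P⁻¹ := by
  apply inv_eq_of_mul_eq_one_right
  apply Subtype.ext
  show em (P : Matrix (Fin n) (Fin n) F) * em ((P⁻¹ : Matrix.SpecialLinearGroup (Fin n) F) : Matrix (Fin n) (Fin n) F) = 1
  rw [em_mul, co_mi, em_one]

/-- **triangularization** -/
theorem tri [Finite F] [CharP F 2] (a : ℕ) : ∀ (n : ℕ) (M : Matrix (Fin n) (Fin n) F),
    M ^ (2 ^ a * (Nat.card F - 1)) = 1 →
    ∃ h : Matrix.SpecialLinearGroup (Fin n) F, ∀ i j : Fin n, j < i →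
      ((h : Matrix (Fin n) (Fin n) F) * M * ((h⁻¹ : Matrix.SpecialLinearGroup (Fin n) F) : Matrix (Fin n) (Fin n) F)) i j = 0 := by
  intro n
  induction n with
  | zero => exact fun M _ => ⟨1, fun i => i.elim0⟩
  | succ n ih =>
    intro M hM
    obtain ⟨c, v, hv, hMv⟩ := eigvec M a hM
    obtain ⟨P, t, hP⟩ := exists_col v hv
    set k := 2 ^ a * (Nat.card F - 1) with hk
    set M1 : Matrix (Fin (n + 1)) (Fin (n + 1)) F :=
      ((P⁻¹ : Matrix.SpecialLinearGroup (Fin (n + 1)) F) : Matrix (Fin (n + 1)) (Fin (n + 1)) F) * M * P with hM1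
    have hPP : (P : Matrix (Fin (n + 1)) (Fin (n + 1)) F) *
        ((P⁻¹ : Matrix.SpecialLinearGroup (Fin (n + 1)) F) : Matrix (Fin (n + 1)) (Fin (n + 1)) F) = 1 := co_mi P
    have hPP' : ((P⁻¹ : Matrix.SpecialLinearGroup (Fin (n + 1)) F) : Matrix (Fin (n + 1)) (Fin (n + 1)) F) *
        (P : Matrix (Fin (n + 1)) (Fin (n + 1)) F) = 1 := co_im P
    have hM1k : ∀ m : ℕ, M1 ^ m =
        ((P⁻¹ : Matrix.SpecialLinearGroup (Fin (n + 1)) F) : Matrix (Fin (n + 1)) (Fin (n + 1)) F) * M ^ m * P := by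
      intro m
      induction m with
      | zero => rw [pow_zero, pow_zero, mul_one, hPP']
      | succ m ihm =>
        rw [pow_succ, ihm, hM1, pow_succ]
        calc _ = ((P⁻¹ : Matrix.SpecialLinearGroup (Fin (n + 1)) F) : Matrix (Fin (n + 1)) (Fin (n + 1)) F) * M ^ m *
              ((P : Matrix (Fin (n + 1)) (Fin (n + 1)) F) *
              ((P⁻¹ : Matrix.SpecialLinearGroup (Fin (n + 1)) F) : Matrix (Fin (n + 1)) (Fin (n + 1)) F)) * M * P := by
              simp only [mul_assoc]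
          _ = _ := by rw [hPP, mul_one]; simp only [mul_assoc]
    have hM1e : M1 *ᵥ (Pi.single 0 1) = c • (Pi.single 0 1 : Fin (n + 1) → F) := by
      rw [hM1, ← mulVec_mulVec, hP, ← mulVec_mulVec, mulVec_smul, hMv, smul_comm, mulVec_smul, ← hP,
        mulVec_mulVec, hPP', one_mulVec]
    have hcol : ∀ i : Fin n, M1 i.succ 0 = 0 := by
      intro i
      have := congrFun hM1e i.succ
      rw [mulVec_single_one] at this
      simpa [Pi.single_apply, Fin.succ_ne_zero] using this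
    set M' : Matrix (Fin n) (Fin n) F := M1.submatrix Fin.succ Fin.succ with hM'
    have hpow : ∀ m : ℕ, (∀ i : Fin n, (M1 ^ m) i.succ 0 = 0) ∧
        (M1 ^ m).submatrix Fin.succ Fin.succ = M' ^ m := by
      intro m
      induction m with
      | zero =>
        constructor
        · intro i
          rw [pow_zero, Matrix.one_apply_ne (Fin.succ_ne_zero i)]
        · rw [pow_zero, pow_zero]
          exact Matrix.submatrix_one _ (Fin.succ_injective n)
      | succ m ihm =>
        constructor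
        · intro i
          rw [pow_succ, Matrix.mul_apply, Fin.sum_univ_succ, ihm.1 i, zero_mul, zero_add]
          apply Finset.sum_eq_zero
          intro x _
          rw [hcol, mul_zero]
        · rw [pow_succ, pow_succ, ← ihm.2]
          ext i j
          rw [Matrix.submatrix_apply, Matrix.mul_apply, Fin.sum_univ_succ, ihm.1 i, zero_mul, zero_add,
            Matrix.mul_apply]
          rfl
    have hM'k : M' ^ k = 1 := by
      rw [← (hpow k).2, hM1k k, hM, mul_one, hPP']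
      exact Matrix.submatrix_one _ (Fin.succ_injective n)
    obtain ⟨h', hh'⟩ := ih M' hM'k
    refine ⟨emS h' * P⁻¹, ?_⟩
    have hinv : (emS h' * P⁻¹)⁻¹ = P * emS h'⁻¹ := by
      rw [_root_.mul_inv_rev, inv_inv, emS_inv]
    rw [hinv, co_mul, co_mul]
    have hre : (emS h' : Matrix (Fin (n + 1)) (Fin (n + 1)) F) *
          ((P⁻¹ : Matrix.SpecialLinearGroup (Fin (n + 1)) F) : Matrix (Fin (n + 1)) (Fin (n + 1)) F) * M *
          ((P : Matrix (Fin (n + 1)) (Fin (n + 1)) F) * (emS h'⁻¹ : Matrix.SpecialLinearGroup (Fin (n + 1)) F)) =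
        em (h' : Matrix (Fin n) (Fin n) F) * M1 *
          em ((h'⁻¹ : Matrix.SpecialLinearGroup (Fin n) F) : Matrix (Fin n) (Fin n) F) := by
      rw [hM1]
      simp only [mul_assoc]
      rfl
    rw [hre]
    have hrow : ∀ (i' : Fin n) (j : Fin (n + 1)), (em (h' : Matrix (Fin n) (Fin n) F) * M1) i'.succ j =
        ∑ l : Fin n, (h' : Matrix (Fin n) (Fin n) F) i' l * M1 l.succ j := by
      intro i' j
      rw [Matrix.mul_apply, Fin.sum_univ_succ, ems0, zero_mul, zero_add]
      rfl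
    have hz : ∀ i' : Fin n, (em (h' : Matrix (Fin n) (Fin n) F) * M1) i'.succ 0 = 0 := by
      intro i'
      rw [hrow]
      apply Finset.sum_eq_zero
      intro x _
      rw [hcol, mul_zero]
    intro i j hji
    obtain ⟨i', rfl⟩ : ∃ i' : Fin n, i = i'.succ := by
      refine Fin.cases (fun h => ?_) (fun i' _ => ⟨i', rfl⟩) i hji
      exact absurd h (Fin.not_lt_zero j)
    rw [Matrix.mul_apply, Fin.sum_univ_succ, hz, zero_mul, zero_add]
    revert hji
    refine Fin.cases (fun _ => ?_) (fun j' hji => ?_) j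
    · simp
    · have h9 := hh' i' j' (Fin.succ_lt_succ_iff.1 hji)
      rw [Matrix.mul_apply] at h9
      rw [← h9]
      apply Finset.sum_congr rfl
      intro x _
      rw [hrow, emss, Matrix.mul_apply]
      rfl

end tri

/-- job SL-H -/
theorem t_H : Pool.Agent.Y788.SL.SH := by
  intro F _ _ _ n g a hg
  have hM : (g : Matrix (Fin n) (Fin n) F) ^ (2 ^ a * (Nat.card F - 1)) = 1 := by
    have h1 : ((g ^ (2 ^ a * (Nat.card F - 1)) : Matrix.SpecialLinearGroup (Fin n) F) :
        Matrix (Fin n) (Fin n) F) = (g : Matrix (Fin n) (Fin n) F) ^ (2 ^ a * (Nat.card F - 1)) :=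
      Matrix.SpecialLinearGroup.coe_pow g _
    rw [← h1, hg]
    exact Matrix.SpecialLinearGroup.coe_one
  obtain ⟨h, hh⟩ := tri a n (g : Matrix (Fin n) (Fin n) F) hM
  refine ⟨h, fun i j hij => ?_⟩
  have h2 := hh i j hij
  rw [← co_mul, ← co_mul] at h2
  exact h2

end Pool.Agent.Y813.SL
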